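import Pool.Agent.H40.Zt7

set_option autoImplicit false

namespace Pool.Agent.Results.MP_113a4a_lc.Neg

open Pool.Agent.H40.Bspt Pool.Agent.H40.Jz Pool.Agent.H40.Zt

theorem result (M : Type) (E : M → M → Prop) (h : IsZF E) (A : M) (hA : ¬ IsFin E A) :
    ¬ ∃ φ : {σ // IsPerm E A σ} → {p // ∃ n x, IsNat E n ∧ E x A ∧ IsPair E p n x},
      Intl E (fun σ => (φ σ).1) ∧ Function.Injective φ := by
  rintro ⟨φ, a, b⟩
  obtain ⟨f, c, d⟩ := intl_t h a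
  have e : ∀ σ τ, IsPerm E A σ → IsPerm E A τ → f σ = f τ → σ = τ := fun σ τ i j k =>
    congrArg Subtype.val (b (Subtype.ext ((d ⟨σ, i⟩).symm.trans (k.trans (d ⟨τ, j⟩)))))
  refine hA (thm_inj h ⟨c, fun σ i => ?_, fun v => few_one h fun σ τ i j => e σ τ i.1 j.1
    (i.2.trans j.2.symm)⟩ e)
  obtain ⟨n, x, j, k, l⟩ := (φ ⟨σ, i⟩).2
  exact ⟨n, x, j, k, (d ⟨σ, i⟩).trans (h.pair_uniq l (pr_sp h n x))⟩

end Pool.Agent.Results.MP_113a4a_lc.Neg
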